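import Pool.Agent.Helper99.WP.GoalsE
import Pool.Agent.Helper99.ERW.Levy

/-!
# WP, packet FV2: recurrence in the plane
-/

open Finset MeasureTheory ProbabilityTheory Filter

namespace Pool.Agent.Helper97.WP

open Pool.Agent.Helper99.ERW Pool.Agent.Helper99.WP

universe u

lemma ofReal_sum_le {ι : Type*} (s : Finset ι) (f : ι → ℝ) :
    ENNReal.ofReal (∑ i ∈ s, f i) ≤ ∑ i ∈ s, ENNReal.ofReal (f i) := by
  classical
  induction s using Finset.induction_on with
  | empty => simp
  | insert a s ha ih =>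
    rw [Finset.sum_insert ha, Finset.sum_insert ha]
    exact ENNReal.ofReal_add_le.trans (add_le_add le_rfl ih)

lemma measurableSet_AtI {d : ℕ} {Ω : Type u} [MeasurableSpace Ω] {P : Measure (Env d)}
    {μ : Measure Ω} {env : Ω → Env d} {X : ℕ → Ω → Site d} (h : IsERW P μ env X) (J : ℕ) :
    MeasurableSet (AtI X J) := by
  unfold AtI AtV
  refine MeasurableSet.iUnion fun m => ?_
  have h1 : MeasurableSet {w | X m w = 0} := h.measurable_walk m (measurableSet_singleton 0)
  have h2 : Measurable (fun w => pastVisits (fun k => X k w) m) :=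
    (measurable_pastVisits_hist env X le_rfl).mono (h.hist_le m) le_rfl
  exact h1.inter (h2 (measurableSet_singleton J))

theorem FV2 (hLWR : LWR_stmt) (hVLE : VLE_stmt.{u}) (hVMS : VMS_stmt) : FV2_stmt.{u} := by
  intro κ hκ Ω _ P _ μ _ env X hX hP hS
  have hcookie : ∀ᵐ ω ∂P, IsCookieEnv ω := by
    filter_upwards [hP] with ω hω using hω.1
  -- the probability of at least J + 1 visits is one
  have hone : ∀ J : ℕ, μ (AtI X J) = 1 := by
    intro J
    refine le_antisymm prob_le_one ?_
    refine ENNReal.le_of_forall_pos_le_add ?_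
    intro ε hε _
    obtain ⟨R, N, hRN⟩ := hLWR κ (ε : ℝ) J hκ (by exact_mod_cast hε)
    set Λ : Finset (Site 2) := Q R 0 with hΛ
    have hne : (0 : Site 2) ∈ Λ := by
      rw [hΛ]
      unfold Q
      rw [Finset.mem_Icc]
      constructor
      · intro l
        simp
      · intro l
        simp
    have hcard : 0 < Λ.card := Finset.card_pos.mpr ⟨0, hne⟩
    have h1 : ∀ᵐ ω ∂P, ENNReal.ofReal (((Λ.card : ℝ)) * (1 - ε)) ≤
        ∑ x : Λ, ENNReal.ofReal (vis (arrW ω Λ) N x J) := by
      filter_upwards [hP] with ω hω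
      have h2 := hRN ω hω
      refine le_trans (ENNReal.ofReal_le_ofReal ?_) (ofReal_sum_le _ _)
      rw [Finset.sum_sub_distrib] at h2
      have h3 : ∑ _x : Λ, (1 : ℝ) = (Λ.card : ℝ) := by
        rw [Finset.sum_const, Finset.card_univ, Fintype.card_coe]
        simp
      rw [h3] at h2
      have h4 : (Λ.card : ℝ) * (1 - ε) = Λ.card - ε * Λ.card := by ring
      rw [h4]
      linarith
    have h5 : ENNReal.ofReal (((Λ.card : ℝ)) * (1 - ε)) ≤ (Λ.card : ENNReal) * μ (AtI X J) := by
      calc ENNReal.ofReal (((Λ.card : ℝ)) * (1 - ε))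
          = ∫⁻ _ω, ENNReal.ofReal (((Λ.card : ℝ)) * (1 - ε)) ∂P := by
            rw [lintegral_const, measure_univ, mul_one]
        _ ≤ ∫⁻ ω, ∑ x : Λ, ENNReal.ofReal (vis (arrW ω Λ) N x J) ∂P := lintegral_mono_ae h1
        _ = ∑ x : Λ, ∫⁻ ω, ENNReal.ofReal (vis (arrW ω Λ) N x J) ∂P := by
            rw [lintegral_finsetSum]
            intro x _
            exact (hVMS 2 Λ N x J).ennreal_ofReal
        _ ≤ ∑ _x : Λ, μ (AtI X J) := by
            refine Finset.sum_le_sum fun x _ => ?_
            exact hVLE 2 Ω _ P μ env X hX hcookie hS Λ N x J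
        _ = (Λ.card : ENNReal) * μ (AtI X J) := by
            rw [Finset.sum_const, Finset.card_univ, Fintype.card_coe, nsmul_eq_mul]
    have h6 : (Λ.card : ENNReal) ≠ 0 := by
      simpa using hcard.ne'
    have h7 : (Λ.card : ENNReal) ≠ ⊤ := ENNReal.natCast_ne_top _
    have h8 : ENNReal.ofReal (1 - ε) ≤ μ (AtI X J) := by
      rw [ENNReal.ofReal_mul (by positivity), ENNReal.ofReal_natCast] at h5
      exact (ENNReal.mul_le_mul_iff_right h6 h7).mp h5
    calc (1 : ENNReal) = ENNReal.ofReal ((1 - ε) + ε) := by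
          rw [sub_add_cancel, ENNReal.ofReal_one]
      _ ≤ ENNReal.ofReal (1 - ε) + ENNReal.ofReal ε := ENNReal.ofReal_add_le
      _ ≤ μ (AtI X J) + ε := by
          refine add_le_add h8 ?_
          rw [ENNReal.ofReal_coe_nnreal]
  have hall : ∀ᵐ w ∂μ, ∀ J, w ∈ AtI X J := by
    rw [ae_all_iff]
    intro J
    exact (prob_compl_eq_zero_iff (measurableSet_AtI hX J)).mpr (hone J)
  have hUEL : UEL P := ⟨κ, hκ, by filter_upwards [hP] with ω hω using hω.2.2⟩
  have hstep : ∀ᵐ w ∂μ, ∀ z : Site 2, ∀ e : Dir 2, (∃ᶠ n in atTop, X n w = z) →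
      ∃ᶠ n in atTop, X n w = z + vec e := by
    rw [ae_all_iff]
    intro z
    rw [ae_all_iff]
    intro e
    exact hX.io_step hUEL z e
  unfold Recurrent
  filter_upwards [hall, hstep] with w hw hs z
  refine forall_of_step (fun z => ∃ᶠ n in atTop, X n w = z) (fun z hz e => hs z e hz) 0 ?_ z
  rw [frequently_atTop]
  intro J
  have h1 := hw J
  unfold AtI AtV at h1
  rw [Set.mem_iUnion] at h1
  obtain ⟨m, hm0, hm⟩ := h1
  refine ⟨m, ?_, hm0⟩
  rw [← hm]
  unfold pastVisits
  exact (Finset.card_filter_le _ _).trans (by simp)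

end Pool.Agent.Helper97.WP
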